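import Pool.Agent.H177R2.SD.Brc
import Pool.Agent.H177R2.SD.QuadAux
import Pool.Agent.Helper919.NonRes
import Pool.Agent.Run7.h823.SG.Lin
import Pool.Agent.Run7.h823.WF.PN
import Pool.Agent.Run7.h823.WF.Ex

/-!
# Symmetric `(v, k, l)`-designs with bounded `l`: block sizes `k` in sparse families of residues

The question is for which triples `(v, k, l)` a symmetric design exists. The starting results of this page count the exceptional
numbers of points `v`; the starting file `DensityZero` of the page MP_c38931_co shows for fixed `l` that almost all `k` do not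
occur. Such statements say nothing about sparse sets of `k`. Here `l ≤ B` is bounded and the block size `k` is near the value of a linear form at members of very sparse FINITE
sets of integers which are defined modulo a large integer, such as the first `m ^ ε` terms of a linear recurrence modulo a
prime `m`.

Let `y_i`, `i ∈ s`, be a finite family of vectors of residues modulo an integer `q` with small Fourier coefficients: for all
`h ≠ 0` modulo `q` we have `|∑ e(h·y_i / q)| ≤ δ (log q) ^ (-r) |s|`, where `r` is the number of the coordinates. We consider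
the integers `k` near `ℓ(c₀ + y_i)` (least residues), for linear forms `ℓ ≠ 0` with integral coefficients and any integral
vector `c₀`.

**Theorem.** For all `r`, `B` and `ε > 0` there is `δ > 0` such that for all `q ≥ 1 / δ`, ALL such families
and ALL `c₀` the following holds for all but `ε |s|` of the `i`, SIMULTANEOUSLY for ALL linear forms `ℓ ≠ 0` with
coefficients at most `B` in absolute value, ALL integers `k` with `|k - ℓ(c₀ + y_i)| ≤ B` and ALL `l ≤ B`: if there is a
symmetric `(v, k, l)`-design with `2 ≤ k ≤ v - 2`, then `l` is a perfect square and `4 l` divides `k (k - 1)`, i.e. `v ≡ 1`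
modulo `4`.

So there is none if `l` is not a perfect square, or if `v` is even or `v ≡ 3` modulo `4`. In the remaining case, `l` a square and
`v ≡ 1` modulo `4`, the theorem of Bruck, Ryser and Chowla gives no information. For `l = 1`: there is no projective plane of
order `n = k - 1` with `n (n + 1)` not divisible by `4`.

The family can be very sparse: examples (of vectors with `r` coordinates) are

* the values `(u_1(n), …, u_r(n))`, `n < N`, of `r` linear recurrences modulo a prime `m` with linearly independent vectors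
  of coefficients, as soon as `N ≥ m ^ ε` and the roots and their quotients have orders `≥ m ^ ε`;
* the vectors `(x_1 b_1 ^ n, …, x_r b_r ^ n)`, `n < N`, `N ≥ m ^ ε`, for fixed different integers `b_j ≥ 2` and
  all `x_j ≠ 0`, modulo all but `C X ^ ε` of the primes `m ≤ X`.

In these examples only `m ^ ε` of the `m ^ r` vectors of the box occur.

From Mathlib: `ZMod.stdAddChar`: the additive character `j ↦ exp (2 π i j / q)` of the integers modulo `q`; `ZMod.val`: the
least residue.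

The proof: the local form of the theorem of Bruck, Ryser and Chowla (starting file `Pool.Agent.H177R2.SD.Brc`): if a prime
`p > 2` divides `k - l` exactly once and does not divide `l`, then `v` is odd and `(-1) ^ ((v - 1) / 2) l` is a square modulo `p`. If
`l` is not a square, then there is a class of primes `p ≡ 1` modulo `4` with `(l / p) = -1`; if `l` is a square, then one uses
the primes `p ≡ 3` modulo `4`. By Dirichlet's theorem the integers `k` without such a prime `p` form a thin set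
(`Pool.Agent.Run7.h823.SG.crit1`) and the vectors `c` with such a `k` near `ℓ(c)` form a pronull set
(`Pool.Agent.Run7.h823.SG.windows`); families with small Fourier coefficients rarely meet pronull sets, since they are
equidistributed modulo every fixed integer (`Pool.Agent.Run7.h823.WF.PN`); the Fourier coefficients of short recurrences are
estimated by the method of Bourgain, Glibichuk and Konyagin (`Pool.Agent.Run7.h823.BK`).
-/

set_option autoImplicit false

namespace Pool.Agent.Results.MP_3038d1_co.DesignsInResidueFamilies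

open Finset (range)

/-- The Fourier coefficients of the vectors of residues `y i`, `i ∈ s`, modulo `q` at the nonzero frequencies are at most
`η` times the number of the vectors: `|∑ i ∈ s, e(h·y_i / q)| ≤ η |s|` for all vectors `h ≠ 0` modulo `q`. -/
def Flat {τ ι : Type} [Fintype ι] (q : ℕ) [NeZero q] (η : ℝ) (s : Finset τ) (y : τ → ι → ZMod q) : Prop :=
  ∀ h : ι → ZMod q, h ≠ 0 → ‖∑ i ∈ s, (ZMod.stdAddChar (∑ j, h j * y i j) : ℂ)‖ ≤ η * s.card

/-- The integral vector `c₀ + y_i`, with the least residues `0 ≤ y_i < q`. -/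
def vec {τ ι : Type} {q : ℕ} (y : τ → ι → ZMod q) (c₀ : ι → ℤ) (i : τ) (j : ι) : ℤ := c₀ j + ((y i j).val : ℕ)

/-- `IsSymmetricDesign v k l`: `k < v` and there is a family of `v` blocks, subsets of the `v`-set `Fin v`,
such that every block has exactly `k` elements, every point lies in exactly `r` blocks (for some `r`), and
every two distinct points lie in exactly `l` common blocks. -/
def IsSymmetricDesign (v k l : ℕ) : Prop :=
  k < v ∧ ∃ (r : ℕ) (B : Fin v → Finset (Fin v)),
    (∀ i, (B i).card = k) ∧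
    (∀ x, (Finset.univ.filter fun i => x ∈ B i).card = r) ∧
    (∀ x y, x ≠ y → (Finset.univ.filter fun i => x ∈ B i ∧ y ∈ B i).card = l)

/-- For all linear forms `ℓ ≠ 0` with coefficients `|lam_j| ≤ B`, all `k` with `|k - ℓ(c)| ≤ B` and all `l ≤ B`: a symmetric
`(v, k, l)`-design with `2 ≤ k ≤ v - 2` exists only if `l` is a perfect square and `4 l` divides `k (k - 1)`. -/
def FewDesignsNear {r : ℕ} (B : ℕ) (c : Fin r → ℤ) : Prop :=
  ∀ lam : Fin r → ℤ, lam ≠ 0 → (∀ j, |lam j| ≤ B) → ∀ k : ℕ, |(k : ℤ) - ∑ j, lam j * c j| ≤ B →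
    ∀ v l : ℕ, 2 ≤ k → k + 2 ≤ v → l ≤ B → IsSymmetricDesign v k l → IsSquare l ∧ 4 * l ∣ k * (k - 1)

/-- a class `d ≡ 1` modulo `4` with `(l / d) = -1` -/
theorem exists_class {l : ℕ} (hl : ¬ IsSquare l) : ∃ d : ℕ, d % 4 = 1 ∧ jacobiSym l d = -1 := by
  have h1 : ¬ IsSquare (l : ℤ) := by
    rintro ⟨t, ht⟩
    apply hl
    refine ⟨t.natAbs, ?_⟩
    have h2 : (l : ℤ) = ((t.natAbs * t.natAbs : ℕ) : ℤ) := by
      rw [ht]
      push_cast
      rw [← sq, ← sq, sq_abs]
    exact_mod_cast h2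
  have hl0 : 0 < l := Nat.pos_of_ne_zero fun h => hl ⟨0, by rw [h]⟩
  have h2 : ¬ IsSquare (-(l : ℤ)) := by
    rintro ⟨t, ht⟩
    nlinarith [mul_self_nonneg t]
  obtain ⟨d₁, ho₁, hd₁⟩ := Pool.Agent.Helper919.exists_jacobi_neg_one _ h1
  obtain ⟨d₂, ho₂, hd₂⟩ := Pool.Agent.Helper919.exists_jacobi_neg_one _ h2
  by_cases e₁ : d₁ % 4 = 1
  · exact ⟨d₁, e₁, hd₁⟩
  have e₁' : d₁ % 4 = 3 := by
    obtain ⟨j, hj⟩ := ho₁
    omega
  rw [jacobiSym.neg _ ho₂] at hd₂
  by_cases e₂ : d₂ % 4 = 1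
  · refine ⟨d₂, e₂, ?_⟩
    rw [ZMod.χ₄_nat_one_mod_four e₂, one_mul] at hd₂
    exact hd₂
  · have e₂' : d₂ % 4 = 3 := by
      obtain ⟨j, hj⟩ := ho₂
      omega
    rw [ZMod.χ₄_nat_three_mod_four e₂'] at hd₂
    refine ⟨d₁ * d₂, ?_, ?_⟩
    · rw [Nat.mul_mod, e₁', e₂']
    · have n₁ : NeZero d₁ := ⟨by omega⟩
      have n₂ : NeZero d₂ := ⟨by omega⟩
      rw [jacobiSym.mul_right, hd₁]
      linarith

/-- the exceptional values of `k - l` -/
def Bad (l : ℕ) (x : ℤ) : Prop :=
  ∃ k v : ℕ, (k : ℤ) - l = x ∧ 2 ≤ k ∧ k + 2 ≤ v ∧ IsSymmetricDesign v k l ∧ ¬ (IsSquare l ∧ 4 * l ∣ k * (k - 1))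

theorem thin (l : ℕ) : Pool.Agent.Run7.h823.SG.Thin (Bad l) := by
  classical
  -- a general fact
  have hle : ∀ k v : ℕ, 2 ≤ k → k + 2 ≤ v → IsSymmetricDesign v k l → 1 ≤ l ∧ l ≤ k ∧ l * (v - 1) = k * (k - 1) := by
    intro k v hk hkv hd
    obtain ⟨-, -, -, -, h4⟩ := Pool.Agent.H177R2.SD.design_count hd
    have h5 : 0 < k * (k - 1) := Nat.mul_pos (by omega) (by omega)
    refine ⟨Nat.pos_of_ne_zero ?_, ?_, h4⟩
    · rintro rfl
      rw [zero_mul] at h4
      omega
    · by_contra h6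
      have h7 : k * (k - 1) < l * (v - 1) :=
        Nat.mul_lt_mul'' (by omega) (by omega)
      omega
  by_cases hsq : IsSquare l
  · refine Pool.Agent.Run7.h823.SG.crit1 _ (fun q => (q : ZMod 1) = 1) (fun _ => 0) (fun _ p => (p : ZMod 4) = 3 ∧ l < p)
      (Pool.Agent.H771R2.Dens.big_ap isUnit_one)
      (fun _ _ _ => (Pool.Agent.H771R2.Dens.big_ap (by decide : IsUnit (3 : ZMod 4))).large l) ?_
    rintro x ⟨k, v, rfl, hk, hkv, hd, hn⟩ q hq - - p hp ⟨hp4, hlp⟩ h1 h2
    obtain ⟨hl1, hlk, hc⟩ := hle k v hk hkv hd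
    have hp4' : p % 4 = 3 := by
      have h3 : ((p : ℕ) : ZMod 4) = ((3 : ℕ) : ZMod 4) := by simpa using hp4
      rw [ZMod.natCast_eq_natCast_iff'] at h3
      omega
    have e : ((k - l : ℕ) : ℤ) = (k : ℤ) - l := by push_cast [Nat.cast_sub hlk]; ring
    rw [← e] at h1 h2
    have h1' : p ∣ k - l := by exact_mod_cast h1
    have h2' : ¬ p ^ 2 ∣ k - l := fun h => h2 (by exact_mod_cast h)
    have h3' : ¬ p ∣ l := fun h => absurd (Nat.le_of_dvd hl1 h) (by omega)
    have : Fact p.Prime := ⟨hp⟩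
    obtain ⟨hv, hs⟩ := Pool.Agent.H177R2.SD.brc_local hd hk hkv hp (by omega) h1' h2' h3'
    have hv4 : v % 4 = 3 := by
      by_contra h
      have h4 : v % 4 = 1 := by omega
      apply hn
      refine ⟨hsq, ?_⟩
      rw [← hc, mul_comm 4 l]
      exact Nat.mul_dvd_mul_left l (by omega)
    have ho : Odd ((v - 1) / 2) := by
      rw [Nat.odd_iff]
      omega
    rw [ho.neg_one_pow] at hs
    obtain ⟨t, ht⟩ := hsq
    obtain ⟨s, hs⟩ := hs
    have ht0 : ((t : ℕ) : ZMod p) ≠ 0 := by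
      rw [Ne, ZMod.natCast_eq_zero_iff]
      intro h
      exact h3' (by rw [ht]; exact Dvd.dvd.mul_right h t)
    have h5 : IsSquare (-1 : ZMod p) := by
      refine ⟨s * ((t : ℕ) : ZMod p)⁻¹, ?_⟩
      have h6 : s * s = -(((t : ℕ) : ZMod p) * ((t : ℕ) : ZMod p)) := by
        rw [← hs, ht]
        push_cast
        ring
      calc (-1 : ZMod p) = -(((t : ℕ) : ZMod p) * ((t : ℕ) : ZMod p)) * (((t : ℕ) : ZMod p)⁻¹ * ((t : ℕ) : ZMod p)⁻¹) := by
            field_simp
        _ = s * ((t : ℕ) : ZMod p)⁻¹ * (s * ((t : ℕ) : ZMod p)⁻¹) := by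
            rw [← h6]
            ring
    exact (ZMod.exists_sq_eq_neg_one_iff.1 h5) hp4'
  · obtain ⟨d, hd4, hdj⟩ := exists_class hsq
    have hl0 : 0 < l := Nat.pos_of_ne_zero fun h => hsq ⟨0, by rw [h]⟩
    have hdc : Nat.Coprime d (4 * l) := by
      refine Nat.Coprime.mul_right ?_ ?_
      · have h1 : Nat.Coprime d 2 := Nat.Coprime.symm ((Nat.Prime.coprime_iff_not_dvd Nat.prime_two).2 (by omega))
        exact Nat.Coprime.pow_right 2 h1
      · have n : NeZero d := ⟨by omega⟩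
        by_contra h
        have h1 : jacobiSym (l : ℤ) d = 0 := by
          rw [jacobiSym.eq_zero_iff_not_coprime]
          intro h2
          apply h
          rw [Int.gcd_natCast_natCast] at h2
          exact Nat.Coprime.symm h2
        rw [h1] at hdj
        norm_num at hdj
    have n4 : NeZero (4 * l) := ⟨by omega⟩
    have hu : IsUnit ((d : ℕ) : ZMod (4 * l)) := (ZMod.isUnit_iff_coprime _ _).2 hdc
    refine Pool.Agent.Run7.h823.SG.crit1 _ (fun q => (q : ZMod 1) = 1) (fun _ => 0)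
      (fun _ p => (p : ZMod (4 * l)) = ((d : ℕ) : ZMod (4 * l)) ∧ l < p)
      (Pool.Agent.H771R2.Dens.big_ap isUnit_one)
      (fun _ _ _ => (Pool.Agent.H771R2.Dens.big_ap hu).large l) ?_
    rintro x ⟨k, v, rfl, hk, hkv, hd, -⟩ q hq - - p hp ⟨hpd, hlp⟩ h1 h2
    obtain ⟨hl1, hlk, hc⟩ := hle k v hk hkv hd
    have hpm : p % (4 * l) = d % (4 * l) := (ZMod.natCast_eq_natCast_iff' _ _ _).1 hpd
    have hp4 : p % 4 = 1 := by
      have h3 : p % (4 * l) % 4 = d % (4 * l) % 4 := by rw [hpm]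
      rw [Nat.mod_mod_of_dvd _ (Dvd.intro l rfl), Nat.mod_mod_of_dvd _ (Dvd.intro l rfl)] at h3
      omega
    have e : ((k - l : ℕ) : ℤ) = (k : ℤ) - l := by push_cast [Nat.cast_sub hlk]; ring
    rw [← e] at h1 h2
    have h1' : p ∣ k - l := by exact_mod_cast h1
    have h2' : ¬ p ^ 2 ∣ k - l := fun h => h2 (by exact_mod_cast h)
    have h3' : ¬ p ∣ l := fun h => absurd (Nat.le_of_dvd hl1 h) (by omega)
    have : Fact p.Prime := ⟨hp⟩
    obtain ⟨-, hs⟩ := Pool.Agent.H177R2.SD.brc_local hd hk hkv hp (by rintro rfl; omega) h1' h2' h3'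
    have hJ : jacobiSym (l : ℤ) p = -1 := by
      have ho : Odd p := by rw [Nat.odd_iff]; omega
      have ho' : Odd d := by rw [Nat.odd_iff]; omega
      rw [jacobiSym.mod_right _ ho, Int.natAbs_natCast, hpm]
      rw [jacobiSym.mod_right _ ho', Int.natAbs_natCast] at hdj
      exact hdj
    refine ZMod.nonsquare_of_jacobiSym_eq_neg_one hJ ?_
    have hm : IsSquare (-1 : ZMod p) := ZMod.exists_sq_eq_neg_one_iff.2 (by omega)
    have hm' : IsSquare ((-1 : ZMod p) ^ ((v - 1) / 2)) := hm.pow _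
    have e2 : ((l : ℤ) : ZMod p) = (-1 : ZMod p) ^ ((v - 1) / 2) * (((-1) ^ ((v - 1) / 2) * (l : ℤ) : ℤ) : ZMod p) := by
      push_cast
      rw [← mul_assoc, ← mul_pow]
      simp
    rw [e2]
    exact hm'.mul hs

open Pool.Agent.N24.RW (ProNull) in
theorem null (r B : ℕ) : ProNull {c : Fin r → ℤ | ¬ FewDesignsNear B c} := by
  refine Pool.Agent.N24.RW.Clo.mono ?_ (Pool.Agent.Run7.h823.WF.PN.proNull_union (Set.finite_Iic B)
    (fun l => {c : Fin r → ℤ | ∃ lam : Fin r → ℤ, lam ≠ 0 ∧ (∀ j, |lam j| ≤ (2 * B : ℕ)) ∧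
      ∃ n : ℤ, |n - ∑ j, lam j * c j| ≤ (2 * B : ℕ) ∧ Bad l n})
    (fun l _ => Pool.Agent.Run7.h823.SG.windows (thin l) r (2 * B)))
  intro c hc
  by_contra hcon
  apply hc
  intro lam hl hlB k hn v l hk hkv hlB' hd
  by_contra hbad
  refine hcon ⟨l, hlB', lam, hl, fun j => (hlB j).trans (by push_cast; linarith [Int.natCast_nonneg B]), (k : ℤ) - l, ?_, k, v, rfl, hk, hkv,
    hd, hbad⟩
  have h1 := abs_le.1 hn
  have h2 : (l : ℤ) ≤ B := by exact_mod_cast hlB'
  have h3 : (0 : ℤ) ≤ l := Int.natCast_nonneg l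
  have h4 : (0 : ℤ) ≤ B := Int.natCast_nonneg B
  rw [abs_le]
  push_cast
  constructor <;> linarith [h1.1, h1.2]

/-- **Theorem.** (1) For all `r`, `B` and `ε > 0` there is `δ > 0` such that for all `q ≥ 1 / δ`, all families of vectors of
residues modulo `q` with Fourier coefficients at most `δ (log q) ^ (-r) |s|` at the nonzero frequencies and all integral
vectors `c₀` all but `ε |s|` of the members `c₀ + y_i` have the property `FewDesignsNear B`.

(2) Examples: short linear recurrences. (3) Examples: the first powers of fixed integers, modulo all but `C X ^ ε` of the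
primes `m ≤ X`. (The Fourier coefficients are even at most `m ^ (-β) N`.) -/
theorem result :
    (∀ (r B : ℕ) (ε : ℝ), 0 < ε → ∃ δ : ℝ, 0 < δ ∧ ∀ (q : ℕ) [NeZero q], 1 / δ ≤ q →
      ∀ (τ : Type) (s : Finset τ) (y : τ → Fin r → ZMod q), Flat q (δ / Real.log q ^ r) s y →
      ∀ c₀ : Fin r → ℤ, ({i : τ | i ∈ s ∧ ¬ FewDesignsNear B (vec y c₀ i)}.ncard : ℝ) ≤ ε * s.card) ∧
    (∀ (k : ℕ) (ε : ℝ), 0 < ε → ∃ β : ℝ, 0 < β ∧ ∃ m₀ : ℕ, ∀ (m : ℕ) [Fact m.Prime], m₀ ≤ m →
      ∀ (ι : Type) [Fintype ι] (c : ι → Fin k → ZMod m) (g : Fin k → (ZMod m)ˣ) (N : ℕ), LinearIndependent (ZMod m) c →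
      (∀ i, (m : ℝ) ^ ε ≤ orderOf (g i)) → (∀ i j, i ≠ j → (m : ℝ) ^ ε ≤ orderOf (g i / g j)) → (m : ℝ) ^ ε ≤ N →
      Flat m ((m : ℝ) ^ (-β)) (range N) (fun n j => ∑ i, c j i * (g i : ZMod m) ^ n)) ∧
    (∀ (ι : Type) [Fintype ι] (ε : ℝ), 0 < ε → ∃ β : ℝ, 0 < β ∧ ∀ b : ι → ℕ, (∀ j, 2 ≤ b j) → Function.Injective b →
      ∃ C : ℝ, ∀ X : ℕ, 1 ≤ X → ∀ Q : Finset ℕ,
      (∀ m ∈ Q, m ≤ X ∧ ∃ _ : Fact m.Prime, ¬ ∀ N : ℕ, (m : ℝ) ^ ε ≤ N → ∀ x : ι → ZMod m, (∀ j, x j ≠ 0) →
        Flat m ((m : ℝ) ^ (-β)) (range N) (fun n j => x j * (b j : ZMod m) ^ n)) →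
      (Q.card : ℝ) ≤ C * (X : ℝ) ^ ε) := by
  refine ⟨?_, fun k ε hε => Pool.Agent.Run7.h823.WF.flat_rec' k hε,
    fun ι _ ε hε => Pool.Agent.Run7.h823.WF.flat_pow' ι hε⟩
  intro r B ε hε
  obtain ⟨δ, hδ, h⟩ := Pool.Agent.Run7.h823.WF.PN.rare _ (null r B) hε
  refine ⟨δ, hδ, fun q _ hq τ s y hf c₀ => h τ q hq s y ?_ c₀⟩
  rw [Fintype.card_fin]
  exact hf

end Pool.Agent.Results.MP_3038d1_co.DesignsInResidueFamilies
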