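import Pool.Agent.Run7.h454.Card2

set_option autoImplicit false

/-!
# Symmetric designs with lambda = 1 and order 2 or 3 modulo 4, with even translations

For `λ = 1` a symmetric `(v, k, λ)` design has `v = k ^ 2 - k + 1`, and which `k` occur is the main
open part of the existence problem (only prime powers `k - 1` are known). If `k - 1` is congruent to
`2` or `3` modulo `4` and all translations of the design are even permutations, then `k - 1` is a
prime power and the design is the design of the lines of `PG(2, F)` for a field `F`.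
-/

namespace Pool.Agent.Results.MP_3038d1_co.EvenTranslationDesigns

/-- The blocks `B i` (`i : Fin v`) form a symmetric `(v, k, 1)` design on the points `Fin v`. -/
structure IsDesign (v k : ℕ) (B : Fin v → Finset (Fin v)) : Prop where
  three_le : 3 ≤ k
  size : ∀ i, (B i).card = k
  pair : ∀ x y : Fin v, x ≠ y → (Finset.univ.filter fun i => x ∈ B i ∧ y ∈ B i).card = 1

/-- The points `x`, `y`, `z` lie in a common block. -/
def Together {v : ℕ} (B : Fin v → Finset (Fin v)) (x y z : Fin v) : Prop :=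
  ∃ i, x ∈ B i ∧ y ∈ B i ∧ z ∈ B i

/-- All translations are even: whenever the blocks `a`, `b`, `l` contain the point `Y`, where `a`
and `b` are different from `l`, and `X`, `Z` are points of `l` different from `Y`, the permutation
`τ` of the points of `a` which sends `p` first to the point `q` of `b` in a common block with `X`
and `p`, and then to the point of `a` in a common block with `Z` and `q`, is even. -/
def TranslationsEven {v : ℕ} (B : Fin v → Finset (Fin v)) : Prop :=
  ∀ X Y Z l a b : Fin v, X ∈ B l → Y ∈ B l → Z ∈ B l → X ≠ Y → Z ≠ Y → Y ∈ B a → Y ∈ B b →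
    a ≠ l → b ≠ l → ∀ τ : Equiv.Perm {p : Fin v // p ∈ B a},
      (∀ p : {p : Fin v // p ∈ B a}, ∃ q ∈ B b, Together B X p.1 q ∧ Together B Z q (τ p).1) →
      Equiv.Perm.sign τ = 1

/-- the blocks as a type -/
def Blk {v : ℕ} (_ : Fin v → Finset (Fin v)) : Type := Fin v

instance {v : ℕ} (B : Fin v → Finset (Fin v)) : Membership (Fin v) (Blk B) :=
  ⟨fun i x => x ∈ B i⟩

instance {v : ℕ} (B : Fin v → Finset (Fin v)) : Fintype (Blk B) :=
  inferInstanceAs (Fintype (Fin v))

theorem mem_blk {v : ℕ} (B : Fin v → Finset (Fin v)) (x : Fin v) (i : Blk B) :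
    x ∈ i ↔ x ∈ B i := Iff.rfl

section
variable {v k : ℕ} {B : Fin v → Finset (Fin v)}

theorem exists_block (h : IsDesign v k B) {x y : Fin v} (hxy : x ≠ y) :
    ∃ i, x ∈ B i ∧ y ∈ B i := by
  obtain ⟨i, hi⟩ := Finset.card_eq_one.1 (h.pair x y hxy)
  have : i ∈ Finset.univ.filter fun i => x ∈ B i ∧ y ∈ B i := by
    rw [hi]; exact Finset.mem_singleton_self i
  exact ⟨i, (Finset.mem_filter.1 this).2⟩

theorem block_eq (h : IsDesign v k B) {x y : Fin v} (hxy : x ≠ y) {i j : Fin v}
    (h1 : x ∈ B i) (h2 : y ∈ B i) (h3 : x ∈ B j) (h4 : y ∈ B j) : i = j := by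
  obtain ⟨a, ha⟩ := Finset.card_eq_one.1 (h.pair x y hxy)
  have e1 : i ∈ Finset.univ.filter fun i => x ∈ B i ∧ y ∈ B i :=
    Finset.mem_filter.2 ⟨Finset.mem_univ _, h1, h2⟩
  have e2 : j ∈ Finset.univ.filter fun i => x ∈ B i ∧ y ∈ B i :=
    Finset.mem_filter.2 ⟨Finset.mem_univ _, h3, h4⟩
  rw [ha, Finset.mem_singleton] at e1 e2
  rw [e1, e2]

/-- counting: `v (v - 1) = v k (k - 1)` -/
theorem count (h : IsDesign v k B) (hv : 0 < v) : v = k ^ 2 - k + 1 := by
  classical
  have hk := h.three_le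
  have h1 : ∑ p ∈ (Finset.univ : Finset (Fin v)).offDiag,
      (Finset.univ.filter fun i => p.1 ∈ B i ∧ p.2 ∈ B i).card = v * v - v := by
    rw [Finset.sum_congr rfl (fun p hp => h.pair p.1 p.2 (Finset.mem_offDiag.1 hp).2.2)]
    simp
  have h2 : ∑ p ∈ (Finset.univ : Finset (Fin v)).offDiag,
      (Finset.univ.filter fun i => p.1 ∈ B i ∧ p.2 ∈ B i).card = v * (k * k - k) := by
    simp only [Finset.card_filter]
    rw [Finset.sum_comm]
    have h3 : ∀ i : Fin v, ∑ p ∈ (Finset.univ : Finset (Fin v)).offDiag,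
        (if p.1 ∈ B i ∧ p.2 ∈ B i then 1 else 0) = k * k - k := by
      intro i
      rw [← Finset.card_filter]
      have h4 : (Finset.univ : Finset (Fin v)).offDiag.filter (fun p => p.1 ∈ B i ∧ p.2 ∈ B i) =
          (B i).offDiag := by
        ext p
        simp only [Finset.mem_filter, Finset.mem_offDiag, Finset.mem_univ, true_and]
        tauto
      rw [h4, Finset.offDiag_card, h.size i]
    rw [Finset.sum_congr rfl (fun i _ => h3 i)]
    simp
  have h5 : v * v - v = v * (k * k - k) := h1.symm.trans h2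
  have h6 : v * (v - 1) = v * (k * k - k) := by
    rw [← h5, Nat.mul_sub, Nat.mul_one]
  have h7 := Nat.eq_of_mul_eq_mul_left hv h6
  rw [sq]
  omega

theorem k_lt (h : IsDesign v k B) (hv : 0 < v) : k < v := by
  have hk := h.three_le
  have hc := count h hv
  have h1 : 3 * k ≤ k ^ 2 := by nlinarith
  omega

theorem exists_not_mem (h : IsDesign v k B) (hv : 0 < v) (i : Fin v) : ∃ x, x ∉ B i := by
  by_contra hcon
  push Not at hcon
  have h1 : B i = Finset.univ := Finset.eq_univ_iff_forall.2 hcon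
  have h2 := h.size i
  rw [h1, Finset.card_univ, Fintype.card_fin] at h2
  have := k_lt h hv
  omega

/-- a point of a block different from two given points -/
theorem exists_third (h : IsDesign v k B) (i x y : Fin v) :
    ∃ z ∈ B i, z ≠ x ∧ z ≠ y := by
  classical
  have h1 : ({x, y} : Finset (Fin v)).card < (B i).card := by
    have h2 := Finset.card_le_two (a := x) (b := y)
    have h3 := h.size i
    have h4 := h.three_le
    omega
  obtain ⟨z, hz, hz'⟩ := Finset.exists_mem_notMem_of_card_lt_card h1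
  refine ⟨z, hz, ?_, ?_⟩
  · rintro rfl; exact hz' (by simp)
  · rintro rfl; exact hz' (by simp)

/-- two points of the design are on a block -/
@[instance_reducible] noncomputable def lines (h : IsDesign v k B) (hv : 0 < v) :
    Configuration.HasLines (Fin v) (Blk B) where
  exists_point i := exists_not_mem h hv i
  exists_line p := by
    obtain ⟨p', -, hp', -⟩ := exists_third h ⟨0, hv⟩ p p
    obtain ⟨l, hl, hl'⟩ := exists_block h hp'
    obtain ⟨c, hc⟩ := exists_not_mem h hv l
    have hcp : p' ≠ c := by rintro rfl; exact hc hl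
    obtain ⟨m, hm, hm'⟩ := exists_block h hcp
    refine ⟨m, fun hpm => ?_⟩
    have := block_eq h hp' hm hpm hl hl'
    subst this
    exact hc hm'
  eq_or_eq {x y i j} h1 h2 h3 h4 := by
    by_cases hxy : x = y
    · exact Or.inl hxy
    · exact Or.inr (block_eq h hxy h1 h2 h3 h4)
  mkLine {x y} hxy := (exists_block h hxy).choose
  mkLine_ax {x y} hxy := (exists_block h hxy).choose_spec

theorem config (h : IsDesign v k B) (hv : 0 < v) :
    ∃ (p₁ p₂ p₃ : Fin v) (l₁ l₂ l₃ : Blk B),
      p₁ ∉ l₂ ∧ p₁ ∉ l₃ ∧ p₂ ∉ l₁ ∧ p₂ ∈ l₂ ∧ p₂ ∈ l₃ ∧ p₃ ∉ l₁ ∧ p₃ ∈ l₂ ∧ p₃ ∉ l₃ := by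
  obtain ⟨p₂, h2, -, -⟩ := exists_third h ⟨0, hv⟩ ⟨0, hv⟩ ⟨0, hv⟩
  obtain ⟨p₃, h3, h32, -⟩ := exists_third h ⟨0, hv⟩ p₂ p₂
  obtain ⟨a, ha, ha2, ha3⟩ := exists_third h ⟨0, hv⟩ p₂ p₃
  obtain ⟨p₁, h1⟩ := exists_not_mem h hv ⟨0, hv⟩
  have ha1 : a ≠ p₁ := by rintro rfl; exact h1 ha
  have h13 : p₁ ≠ p₃ := by rintro rfl; exact h1 h3
  obtain ⟨l₁, hl1, hl1'⟩ := exists_block h ha1
  obtain ⟨m, hm1, hm3⟩ := exists_block h h13
  obtain ⟨c, hc, hc1, hc3⟩ := exists_third h m p₁ p₃
  have hc2 : c ∉ B ⟨0, hv⟩ := by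
    intro hcl
    have := block_eq h hc3 hc hm3 hcl h3
    subst this
    exact h1 hm1
  have hp2c : p₂ ≠ c := by rintro rfl; exact hc2 h2
  obtain ⟨l₃, hl3, hl3'⟩ := exists_block h hp2c
  refine ⟨p₁, p₂, p₃, l₁, (⟨0, hv⟩ : Fin v), l₃, h1, ?_, ?_, h2, hl3, ?_, h3, ?_⟩
  · intro hcon
    have e : l₃ = m := block_eq h hc1 hl3' hcon hc hm1
    have e2 : m = ⟨0, hv⟩ := block_eq h h32 hm3 (e ▸ hl3) h3 h2
    exact h1 (e2 ▸ hm1)
  · intro hcon
    have e : l₁ = ⟨0, hv⟩ := block_eq h ha2 hl1 hcon ha h2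
    exact h1 (e ▸ hl1')
  · intro hcon
    have e : l₁ = ⟨0, hv⟩ := block_eq h ha3 hl1 hcon ha h3
    exact h1 (e ▸ hl1')
  · intro hcon
    have e : l₃ = ⟨0, hv⟩ := block_eq h h32 hcon hl3 h3 h2
    exact hc2 (e ▸ hl3')

/-- the plane of the design -/
@[instance_reducible] noncomputable def plane (h : IsDesign v k B) (hv : 0 < v) :
    Configuration.ProjectivePlane (Fin v) (Blk B) :=
  letI i1 : Configuration.HasLines (Fin v) (Blk B) := lines h hv
  letI i2 : Configuration.HasPoints (Fin v) (Blk B) :=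
    Configuration.HasLines.hasPoints (by
      change Fintype.card (Fin v) = Fintype.card (Fin v)
      rfl)
  { i1, i2 with exists_config := config h hv }

theorem order_eq (h : IsDesign v k B) (hv : 0 < v)
    [i : Configuration.ProjectivePlane (Fin v) (Blk B)] :
    Configuration.ProjectivePlane.order (Fin v) (Blk B) = k - 1 := by
  let l : Blk B := (⟨0, hv⟩ : Fin v)
  have h1 := Configuration.ProjectivePlane.pointCount_eq (P := Fin v) (L := Blk B) l
  unfold Configuration.pointCount at h1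
  have h2 : Nat.card {p : Fin v // p ∈ l} = k := by
    have h3 : Nat.card {p : Fin v // p ∈ B ⟨0, hv⟩} = k := by
      rw [Nat.card_eq_fintype_card, Fintype.card_coe, h.size]
    exact h3
  omega

end

theorem sign_inst {α : Type} (d1 d2 : DecidableEq α) (f1 f2 : Fintype α) (τ : Equiv.Perm α) :
    @Equiv.Perm.sign α d1 f1 τ = @Equiv.Perm.sign α d2 f2 τ := by
  cases Subsingleton.elim d1 d2
  cases Subsingleton.elim f1 f2
  rfl

/-- A symmetric `(v, k, 1)` design with `k - 1` congruent to `2` or `3` modulo `4`, all of whose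
translations are even, is the design of the lines of the projective plane over a field `F`; in
particular `k - 1` is a prime power, and it is congruent to `3` modulo `4`. -/
theorem result (v k : ℕ) (hv : 0 < v) (B : Fin v → Finset (Fin v)) (h : IsDesign v k B)
    (hk : (k - 1) % 4 = 2 ∨ (k - 1) % 4 = 3) (he : TranslationsEven B) :
    (k - 1) % 4 = 3 ∧ IsPrimePow (k - 1) ∧ v = (k - 1) ^ 2 + (k - 1) + 1 ∧
      ∃ (F : Type) (_ : Field F) (f : Fin v ≃ Projectivization F (Fin 3 → F))
        (g : Fin v ≃ {W : Submodule F (Fin 3 → F) // Module.finrank F W = 2}),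
        ∀ x i, x ∈ B i ↔ (f x).submodule ≤ (g i).1 := by
  classical
  let _ := plane h hv
  have : Finite (Blk B) := inferInstanceAs (Finite (Fin v))
  have ho := order_eq h hv
  have hE : Pool.Agent.Run7.H454.EvenTranslations (Fin v) (Blk B) := by
    intro X Y Z l a b hX hY hZ hXY hZY hYa hYb hal hbl τ hτ
    have h1 := he X Y Z l a b hX hY hZ hXY hZY hYa hYb hal hbl τ hτ
    exact (sign_inst _ _ _ _ τ).trans h1
  have hB := Pool.Agent.Run7.H454.BR_of_even hE
  have hv2 : v = (k - 1) ^ 2 + (k - 1) + 1 := by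
    have h3 := h.three_le
    obtain ⟨m, rfl⟩ : ∃ m, k = m + 1 := ⟨k - 1, by omega⟩
    have h4 := count h hv
    rw [h4, Nat.add_sub_cancel]
    have h5 : (m + 1) ^ 2 = m ^ 2 + m + (m + 1) := by ring
    omega
  rw [← ho] at hk ⊢
  rcases hk with hn | hn
  · exact absurd hn (Pool.Agent.Run7.H454.not_two hB)
  · obtain ⟨F, fld, f, g, hfg⟩ := Pool.Agent.Run7.H454.iso_of_HH ⟨hB, hn⟩
    refine ⟨hn, Pool.Agent.Run7.H454.isPrimePow_of_iso (L := Blk B) f, ?_, F, fld, f, g, hfg⟩
    rw [ho]
    exact hv2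

end Pool.Agent.Results.MP_3038d1_co.EvenTranslationDesigns
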