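import Pool.Agent.Run7.h900.GI.Groups
import Pool.Agent.Run7.h576.MD.Transport

/-!
# Symmetric designs with Menon parameters and prescribed groups of automorphisms

Let `tow n` be the power tower `2 ^ 2 ^ ⋯ ^ 2` of `n` twos (`tow 0 = 1`). There is a constant `C`
such that the following holds. Let the finite group `G` be embedded into a finite group `Q` with
`|Q| = 2 ^ t * |G| = 2 u`. Then there is a symmetric design with the Menon parameters
`(4u², 2u² - u, u² - u)` with a group of automorphisms isomorphic to `G × Q`, which acts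
semiregularly on the points and on the blocks (so with only `2 ^ t` orbits on the `|Q|²` points),
in each of the following cases.

* `G` has subgroups `1 = K 0 ≤ K 1 ≤ ⋯ ≤ K r = G` such that `K (i + 1)` is the disjoint union of
  the sets `K i * a i ^ j`, `j < q i`, for an element `a i` (no normality is assumed), `q i ≤ tow (n i)`
  and `t ≥ ∑ i < r, C ^ (n i + 1)`.
* `G` is solvable and `t ≥ ∑ C ^ (n p + 1)`, the sum over the prime factors `p` of `|G|` with
  multiplicity, `p ≤ tow (n p)`.
* `G` is the symmetric group on `n ≤ tow m` letters and `t ≥ n * C ^ (m + 1)`.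

The proof. A Hadamard matrix `H` of order `2 ^ t * |G|` on which `G` acts with regular orbits
(helper900, `MP_d8b1b3_co.GroupInvariant`, from the para-unitary matrices of the starting file
`LogStarExistence`) is indexed by the elements of `Q`, so that `H (g x) (g y) = H x y` for `g ∈ G`.
The matrix `R (a, x) (b, y) = H (a b) x * H (a b) y` is a Hadamard matrix with constant row sums,
invariant under `(a, x) ↦ (g a k⁻¹, g x)`, `(b, y) ↦ (k b, g y)` for `g ∈ G`, `k ∈ Q`.
-/

set_option autoImplicit false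

namespace Pool.Agent.Results.MP_3038d1_co.MenonDesignsPrescribedGroups

/-- the power tower of `n` twos -/
def tow (n : ℕ) : ℕ := (fun x : ℕ => 2 ^ x)^[n] 1

/-- `K ≤ K'`, `a ∈ K'`, and each element of `K'` is `k * a ^ j` for exactly one `k ∈ K`, `j < q` -/
def CyclicStep {G : Type} [Group G] (K K' : Subgroup G) (a : G) (q : ℕ) : Prop :=
  K ≤ K' ∧ a ∈ K' ∧ ∀ g ∈ K', ∃! p : K × Fin q, (p.1 : G) * a ^ (p.2 : ℕ) = g

/-- A symmetric design with the Menon parameters `(4u², 2u² - u, u² - u)` (points `P`, blocks `B`),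
with a group of automorphisms isomorphic to `A` acting semiregularly on the points and on the
blocks. -/
def HasMenonDesign (A : Type) [Group A] (u : ℕ) : Prop :=
  ∃ (P B : Type) (_ : Fintype P) (_ : Fintype B) (_ : MulAction A P) (_ : MulAction A B)
    (inc : P → B → Prop),
    Fintype.card P = 4 * u ^ 2 ∧ Fintype.card B = 4 * u ^ 2 ∧
    (∀ b, {p | inc p b}.ncard = 2 * u ^ 2 - u) ∧
    (∀ p q, p ≠ q → {b | inc p b ∧ inc q b}.ncard = u ^ 2 - u) ∧
    (∀ (a : A) p b, inc (a • p) (a • b) ↔ inc p b) ∧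
    (∀ (a : A) (p : P), a • p = p → a = 1) ∧ (∀ (a : A) (b : B), a • b = b → a = 1)

/-- For every finite group `Q` of order `2 u = 2 ^ t * |G|` containing `G` there is a symmetric
design with Menon parameters with the group `G × Q` of automorphisms. -/
def AllOvergroups (G : Type) [Group G] (t : ℕ) : Prop :=
  ∀ (Q : Type) [Group Q] [Finite Q] (ι : G →* Q) (u : ℕ), Function.Injective ι →
    Nat.card Q = 2 ^ t * Nat.card G → Nat.card Q = 2 * u → HasMenonDesign (G × Q) u

theorem of_had {G : Type} [Group G] [Fintype G] [DecidableEq G] {t : ℕ}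
    (h : ∃ H : Matrix (Fin (2 ^ t) × G) (Fin (2 ^ t) × G) ℤ,
      (∀ x y, H x y = 1 ∨ H x y = -1) ∧
      H * H.transpose = ((2 ^ t * Fintype.card G : ℕ) : ℤ) •
        (1 : Matrix (Fin (2 ^ t) × G) (Fin (2 ^ t) × G) ℤ) ∧
      ∀ (g x y : G) (i j : Fin (2 ^ t)), H (i, g * x) (j, g * y) = H (i, x) (j, y)) :
    AllOvergroups G t := by
  intro Q _ _ ι u hι hc hu
  have := Fintype.ofFinite Q
  classical
  obtain ⟨H, h1, h2, h3⟩ := h
  rw [Nat.card_eq_fintype_card, Nat.card_eq_fintype_card] at hc
  rw [Nat.card_eq_fintype_card] at hu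
  have h4 : ∀ x y, x ≠ y → ∑ z, H x z * H y z = 0 := by
    intro x y hxy
    have := congrFun (congrFun h2 x) y
    rw [Matrix.mul_apply, Matrix.smul_apply, Matrix.one_apply_ne hxy, smul_zero] at this
    exact this
  obtain ⟨H', hH'⟩ := Run7.h576.MD.transport ι hι t hc H h1 h4 h3
  exact Run7.h576.MD.menon_of_inv ι hι u hu H' hH'

/-- **Symmetric designs with Menon parameters and prescribed groups.** -/
theorem result : ∃ C : ℕ,
    (∀ (G : Type) [Group G] [Finite G] (r : ℕ) (K : ℕ → Subgroup G) (a : ℕ → G)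
      (q n : ℕ → ℕ), K 0 = ⊥ → K r = ⊤ →
      (∀ i < r, CyclicStep (K i) (K (i + 1)) (a i) (q i) ∧ q i ≤ tow (n i)) →
      ∀ t : ℕ, ∑ i ∈ Finset.range r, C ^ (n i + 1) ≤ t → AllOvergroups G t) ∧
    (∀ (G : Type) [Group G] [Finite G] [Group.IsSolvable G] (n : ℕ → ℕ),
      (∀ p ∈ (Nat.card G).primeFactorsList, p ≤ tow (n p)) →
      ∀ t : ℕ, ((Nat.card G).primeFactorsList.map (fun p => C ^ (n p + 1))).sum ≤ t →
        AllOvergroups G t) ∧
    (∀ m n t : ℕ, n ≤ tow m → n * C ^ (m + 1) ≤ t →
      AllOvergroups (Equiv.Perm (Fin n)) t) := by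
  obtain ⟨C, -, hC⟩ := Pool.Agent.W851.Had.main_pu
  refine ⟨C, ?_, ?_, ?_⟩
  · intro G _ _ r K a q n h0 hr h t ht
    have := Fintype.ofFinite G
    classical
    have h1 := Run7.h900.GI.reach_chain hC K a q n h0 r h t ht
    rw [hr] at h1
    exact of_had (Run7.h900.GI.reach_had h1)
  · intro G _ _ _ n hn t ht
    have := Fintype.ofFinite G
    classical
    rw [Nat.card_eq_fintype_card] at hn ht
    have h2 : Nat.card (⊤ : Subgroup G) = Fintype.card G := by
      rw [Subgroup.card_top, Nat.card_eq_fintype_card]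
    exact of_had (Run7.h900.GI.reach_had (Run7.h900.GI.reach_solv hC n (Fintype.card G) ⊤ h2 hn t ht))
  · intro m n t hn ht
    exact of_had (Run7.h900.GI.reach_had (Run7.h900.GI.reach_sym hC n m t hn ht))

end Pool.Agent.Results.MP_3038d1_co.MenonDesignsPrescribedGroups
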